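import Mathlib

set_option autoImplicit false

namespace Pool.Agent.H305Z.Plank

/-- integer points of the decagon (units 1/500) -/
def inB (x y : ℤ) : Bool :=
  decide (y ≤ 166) && decide (-y ≤ 166) && decide (32 * x + 37 * y ≤ 7614) &&
    decide (32 * x - 37 * y ≤ 7614) && decide (-32 * x + 37 * y ≤ 7614) &&
    decide (-32 * x - 37 * y ≤ 7614) && decide (51 * x + 13 * y ≤ 7446) &&
    decide (51 * x - 13 * y ≤ 7446) && decide (-51 * x + 13 * y ≤ 7446) &&
    decide (-51 * x - 13 * y ≤ 7446)

/-- state: an interval for each of the five positions -/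
structure St where
  a0 : ℤ
  b0 : ℤ
  a1 : ℤ
  b1 : ℤ
  a2 : ℤ
  b2 : ℤ
  a3 : ℤ
  b3 : ℤ
  a4 : ℤ
  b4 : ℤ

def br (a b p : ℤ) (k : ℤ → ℤ → List (ℤ × ℤ) → Option (List (ℤ × ℤ))) :
    Option (List (ℤ × ℤ)) → Option (List (ℤ × ℤ))
  | none => none
  | some l => if max a (p - 2500) ≤ min b p then k (max a (p - 2500)) (min b p) l else some l

def chk : ℕ → St → List (ℤ × ℤ) → Option (List (ℤ × ℤ))
  | 0, _, _ => none
  | _ + 1, _, [] => none
  | f + 1, s, (x, y) :: l =>
    if inB x y then
      br s.a4 s.b4 (-20 * x + 15 * y) (fun a b => chk f { s with a4 := a, b4 := b }) <|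
      br s.a3 s.b3 (-7 * x + 24 * y) (fun a b => chk f { s with a3 := a, b3 := b }) <|
      br s.a2 s.b2 (7 * x + 24 * y) (fun a b => chk f { s with a2 := a, b2 := b }) <|
      br s.a1 s.b1 (20 * x + 15 * y) (fun a b => chk f { s with a1 := a, b1 := b }) <|
      br s.a0 s.b0 (25 * x) (fun a b => chk f { s with a0 := a, b0 := b }) (some l)
    else none

lemma br_none (a b p : ℤ) (k : ℤ → ℤ → List (ℤ × ℤ) → Option (List (ℤ × ℤ))) :
    br a b p k none = none := rfl

lemma br_kill (a b p : ℤ) (k : ℤ → ℤ → List (ℤ × ℤ) → Option (List (ℤ × ℤ))) (C : ℝ)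
    (ha : (a : ℝ) ≤ C) (hb : C ≤ b) (h1 : C ≤ p) (h2 : (p : ℝ) ≤ C + 2500)
    (hk : ∀ a' b' : ℤ, (a' : ℝ) ≤ C → C ≤ b' → ∀ l, k a' b' l = none)
    (o : Option (List (ℤ × ℤ))) : br a b p k o = none := by
  cases o with
  | none => rfl
  | some l =>
    have e1 : ((max a (p - 2500) : ℤ) : ℝ) ≤ C := by
      push_cast
      exact max_le ha (by linarith)
    have e2 : C ≤ ((min b p : ℤ) : ℝ) := by
      push_cast
      exact le_min hb h1
    have e3 : max a (p - 2500) ≤ min b p := by exact_mod_cast e1.trans e2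
    simp only [br, if_pos e3]
    exact hk _ _ e1 e2 l

/-- the five planks at positions `C0, ..., C4` cover all integer points of the decagon -/
def Cov (C0 C1 C2 C3 C4 : ℝ) : Prop :=
  ∀ x y : ℤ, inB x y = true →
    (C0 ≤ ((25 * x : ℤ) : ℝ) ∧ ((25 * x : ℤ) : ℝ) ≤ C0 + 2500) ∨
    (C1 ≤ ((20 * x + 15 * y : ℤ) : ℝ) ∧ ((20 * x + 15 * y : ℤ) : ℝ) ≤ C1 + 2500) ∨
    (C2 ≤ ((7 * x + 24 * y : ℤ) : ℝ) ∧ ((7 * x + 24 * y : ℤ) : ℝ) ≤ C2 + 2500) ∨
    (C3 ≤ ((-7 * x + 24 * y : ℤ) : ℝ) ∧ ((-7 * x + 24 * y : ℤ) : ℝ) ≤ C3 + 2500) ∨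
    (C4 ≤ ((-20 * x + 15 * y : ℤ) : ℝ) ∧ ((-20 * x + 15 * y : ℤ) : ℝ) ≤ C4 + 2500)

def Ok (C0 C1 C2 C3 C4 : ℝ) (s : St) : Prop :=
  ((s.a0 : ℝ) ≤ C0 ∧ C0 ≤ s.b0) ∧ ((s.a1 : ℝ) ≤ C1 ∧ C1 ≤ s.b1) ∧ ((s.a2 : ℝ) ≤ C2 ∧ C2 ≤ s.b2) ∧
    ((s.a3 : ℝ) ≤ C3 ∧ C3 ≤ s.b3) ∧ ((s.a4 : ℝ) ≤ C4 ∧ C4 ≤ s.b4)

theorem chk_none {C0 C1 C2 C3 C4 : ℝ} (h : Cov C0 C1 C2 C3 C4) :
    ∀ (f : ℕ) (s : St) (l : List (ℤ × ℤ)), Ok C0 C1 C2 C3 C4 s → chk f s l = none := by
  intro f
  induction f with
  | zero => intro s l _; rfl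
  | succ f ih =>
    intro s l hs
    match l with
    | [] => rfl
    | (x, y) :: l =>
      unfold chk
      by_cases hB : inB x y = true
      · rw [if_pos hB]
        obtain ⟨h0, h1, h2, h3, h4⟩ := hs
        rcases h x y hB with hc | hc | hc | hc | hc
        · rw [br_kill _ _ _ _ C0 h0.1 h0.2 hc.1 hc.2
            (fun a b ha hb l => ih { s with a0 := a, b0 := b } l ⟨⟨ha, hb⟩, h1, h2, h3, h4⟩)]
          rfl
        · rw [br_kill _ _ _ _ C1 h1.1 h1.2 hc.1 hc.2
            (fun a b ha hb l => ih { s with a1 := a, b1 := b } l ⟨h0, ⟨ha, hb⟩, h2, h3, h4⟩)]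
          rfl
        · rw [br_kill _ _ _ _ C2 h2.1 h2.2 hc.1 hc.2
            (fun a b ha hb l => ih { s with a2 := a, b2 := b } l ⟨h0, h1, ⟨ha, hb⟩, h3, h4⟩)]
          rfl
        · rw [br_kill _ _ _ _ C3 h3.1 h3.2 hc.1 hc.2
            (fun a b ha hb l => ih { s with a3 := a, b3 := b } l ⟨h0, h1, h2, ⟨ha, hb⟩, h4⟩)]
          rfl
        · rw [br_kill _ _ _ _ C4 h4.1 h4.2 hc.1 hc.2
            (fun a b ha hb l => ih { s with a4 := a, b4 := b } l ⟨h0, h1, h2, h3, ⟨ha, hb⟩⟩)]
      · rw [if_neg hB]

def c0 : List (ℤ × ℤ) := [(-146, 0), (-45, -166), (-45, 166), (-40, 0), (30, -90), (120, -102), (10, -70), (-40, 20), (30, -90), (100, 10), (50, -120), (-40, 0), (50, 80), (70, -145), (30, -90), (90, 0), (-40, 0), (30, 90), (70, -145), (30, -90), (70, 140), (-45, 166), (-40, -60), (120, 102), (-40, 50), (115, -106), (40, -20), (40, 166), (-40, 60), (70, -90), (140, -10), (5, 166), (70, 80), (-90, 50), (0, 166), (-40, 50), (121, 95), (-40, 110), (-40, -60), (-10, 70), (60, -20), (70, -90), (140, -10),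 (-40, -60), (10, 50), (80, -50), (10, 60), (76, 140), (-45, 166), (-40, -60), (120, 102), (-40, 50), (60, 10), (50, 20), (-40, 70), (40, 166), (-40, 60), (142, 15), (-50, 100), (-40, 90), (80, -70), (46, -166), (60, -50), (-40, -10), (-40, -20), (70, -50), (35, 166), (-10, -50), (120, 102), (-40, 110), (80, -70), (46, -166), (60, -50), (-40, -10), (0, 166), (60, -100), (46, -166), (40, -60), (-70, -30), (65, 149), (-40, 10), (-40, 120), (-40, -60), (20, 30), (120, -10), (130, -10), (-80, 60), (-40, 40), (20, -50), (-20, -166), (-40, -60), (10, 50), (70, 140), (-10, 40), (60, 120), (-45, 166), (-50, 0), (-40, -10), (65, -149), (65, 149)]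

def c1 : List (ℤ × ℤ) := [(-40, 100), (-40, -120), (120, 102), (-40, 100), (65, -149), (65, 149), (-40, 100), (-40, -120), (85, 132), (-40, 100), (-30, -166), (-40, 10), (-30, 166), (100, 0), (40, -80), (-15, 166), (-40, 10), (-30, 166), (100, 0), (65, 149), (-40, 120), (65, -149), (65, 149), (-40, 110), (-40, -120), (120, 102), (-40, 110), (65, -149), (65, 149), (-40, 110), (-40, -120), (70, 145), (-40, 110), (-40, 10), (133, -50), (-10, 50), (-100, -10), (20, 100), (46, 166), (50, 60), (25, -166), (120, -30), (60, 30), (-40, -110), (-50, 0), (-40, -10), (70, 40), (0, 166), (-60, -140), (-40, -110), (120, -102), (-50, -160), (40, -40), (-40, 60), (120, -102), (40, -166), (-40, -100), (-40, -140), (30, -50), (-40, 40), (-40, 10), (20, 100), (133, -50), (-60, -140), (-40, -110), (20, -20), (40, 80), (-110, -80), (131, -55), (-50, 0), (-40, -10), (-30, -166), (-60, -140), (-40, -110), (20, -20), (110, -20), (-15, -166), (80, -120), (85, -132), (30, 110), (60, 90), (-5, -166), (93, -125), (-40, 50),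 (-40, -130), (60, 90), (-105, 114), (0, -20), (0, 90), (81, -135), (20, -10), (130, -40), (0, 166), (50, 70), (110, 60), (81, -135), (130, -40), (0, 90), (70, -120), (46, 166)]

def c2 : List (ℤ × ℤ) := [(0, 70), (10, -40), (80, -130), (70, -120), (104, 115), (0, 150), (0, 150), (70, -120), (145, 3), (80, -130), (70, -120), (120, -30), (10, -40), (115, -106), (115, 106), (120, 0), (-100, 60), (-128, -70), (120, -60), (-100, 0), (-131, -55), (-100, 80), (-35, 166), (70, 145), (80, -10), (-76, 140), (25, 166), (115, 106), (-100, 60), (-128, -70), (-93, -125), (-50, 40), (60, 30), (52, 160), (120, 0), (60, -10), (-50, -30), (-120, -102), (-40, -40), (70, 0), (120, -102), (-120, -102), (-30, -50), (80, -50), (30, -50), (-80, -60), (120, -102), (40, -40), (-70, -60), (-60, -10), (50, -20), (-64, 150), (70, 80), (76, 140), (-126, 75), (80, -130), (-25, 166), (-70, 70), (-30, 60), (-50, -162), (-100, 80), (-30, 0), (30, -100), (130, -62), (20, -90), (-93, -125), (-50, -162), (-30, -20), (125, -82), (20, -110),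 (40, -110), (-99, -120), (0, 20), (20, 120), (-70, 145), (-76, -140), (-50, 0), (20, 90), (46, 166), (-55, 158), (-60, 50), (-50, 50), (-60, 60), (52, 160), (-90, 100), (10, 70), (-100, 100), (20, 60), (-123, -90), (80, -130), (-25, 166), (-70, 70), (135, -43), (30, -60), (-30, 30), (30, 166), (-80, 90), (-20, 0), (30, -110), (-129, -65)]

def c3 : List (ℤ × ℤ) := [(130, -62), (-50, 50), (-90, 0), (-131, -55), (-30, -20), (40, -110), (20, -80), (-50, 10), (20, 100), (-60, -10), (-120, -100), (-121, -95), (10, -100), (35, 166), (-90, 0), (-70, 145), (-70, 40), (-135, -43), (-80, 80), (144, -5), (30, 10), (-30, 20), (80, -130), (80, -20), (135, -40), (80, 60), (80, 40), (80, -70), (120, -102), (30, -50), (126, 75), (60, -10), (-50, 20), (-138, -30), (70, -120), (-120, -102), (-40, -40), (142, 15), (10, -100), (0, 60), (-70, 145), (-40, 70), (-46, 166), (-20, 60), (90, 100), (81, -135), (30, -130), (138, 30), (126, -75), (20, -120), (-50, -20), (-46, 166), (95, -123), (-10, -130), (-40, -166), (50, -110),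 (130, 62), (20, -100), (-76, -140), (-128, -70), (20, -70), (-60, 60), (-50, 60), (-70, -145), (30, -110), (131, 55), (134, -45), (30, -90), (100, 90), (-120, -102), (-20, -60), (0, 40), (-10, 50), (-81, 135), (-70, 145), (0, 166), (70, 60), (40, -40), (120, -102), (40, -80), (142, -15), (110, -110), (0, -110), (-46, 166), (-40, -166), (30, -90), (131, 55), (131, -55), (90, 10), (146, 0), (40, 30), (-60, 70), (-46, 166), (-50, 60), (40, 10), (40, -100), (-70, -145), (-40, 30), (64, 150), (70, -120)]

def c4 : List (ℤ × ℤ) := [(70, -10), (70, -120), (70, -10), (30, 120), (123, 90), (20, 120), (20, -100), (-125, -82), (20, 110), (-30, 20), (131, -55), (20, -100), (-125, -82), (100, -119), (-10, -90), (-120, -102), (-10, -80), (140, -10), (70, -120), (-120, -102), (0, -90), (104, -115), (110, -10), (30, -60), (131, -55), (-120, -102), (70, -145), (-40, 140), (140, -23), (-40, -80), (0, -90), (104, -115), (140, -20), (104, 115), (55, 158), (-85, -132), (-50, 140), (142, 15), (40, 140), (40, 30), (-10,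 -60), (-50, 70), (0, 80), (104, 115), (50, 40), (142, 15), (40, 40), (40, -80), (-120, 100), (-15, -166), (-15, 166), (10, 60), (120, 30), (40, 50), (85, 132), (110, 30), (-15, 166), (120, 102), (-10, 70), (70, 0), (0, -90), (46, -166), (20, 60), (-50, 140), (20, -60), (40, 40), (-30, 120), (-134, -45), (-20, -80), (-123, 90), (40, 166), (-30, 80), (-10, 100), (-131, 55), (-133, -50), (40, 50), (120, 102), (30, 50), (-10, -60), (-15, 166), (81, 135), (-10, 70), (50, -162), (-60, -140), (-10, -70), (40, 20), (-30, 110), (-10, 110), (-125, 80), (-20, 100), (40, 10), (-134, -45), (50, -162), (-60, -140), (-10, -70), (-10, -10), (-40, -110), (-10, -120), (50, 20), (120, 100)]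

def c5 : List (ℤ × ℤ) := [(76, -140), (-30, -110), (-131, -55), (10, 10), (20, 166), (90, 80), (10, 60), (81, 135), (120, 100), (46, -166), (-100, -119), (5, 166), (40, 60), (139, 25), (50, 50), (5, -166), (-46, -166), (99, 120), (139, 25), (-40, 166), (64, 150), (120, 50), (30, 70), (131, 55), (-40, 166), (138, 30), (64, 150), (129, 65), (135, -40), (-15, 166), (85, -132), (95, 123), (0, 166), (-47, -165), (55, 158), (125, 82), (140, -20), (105, -114), (55, -158), (15, -166), (-55, -158), (46, -166), (121, -95), (145, 3), (120, 100), (46, 166), (40, 166), (-65, -149), (138, 30), (-10, -166), (-46, -166), (-10, 70), (-100, -119), (5, -166), (70, 50), (140, 23), (40, 60), (5, 166), (40, 50), (50, -162), (-60, -140), (80, 50), (10, -30), (-120, -102), (-10, -130), (-10, -70), (10, 30), (100, 80), (35, 166), (5, 166), (52, 160), (20, 30), (116, -105), (0, -90), (-138, -30), (70, 50), (140, 23), (30, 60), (-85, 132), (35, -166), (30, 30), (-10, -70), (35, -166), (30, -120), (-100, 60), (-46, 166), (-90,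 40), (10, 0), (-46, 166), (-40, 60), (-40, -50), (-10, 70), (100, 100), (93, -125), (55, -158), (-46, 166), (-50, 60), (-50, 80), (121, -95), (-10, 70)]

def c6 : List (ℤ × ℤ) := [(10, -90), (120, -70), (-70, 10), (20, -40), (128, -70), (-10, -166), (138, 30), (50, -162), (-52, -160), (-124, -85), (-70, 10), (138, 30), (-46, 166), (-10, 70), (-70, 90), (100, 40), (35, -166), (-55, -158), (30, -100), (-80, 50), (20, 10), (-100, -119), (5, -166), (10, 60), (52, 160), (40, 50), (10, 60), (76, 140), (-10, 70), (93, 125), (130, 30), (55, -158), (-50, -140), (143, 10), (40, -160), (40, -130), (40, -20), (-20, -50), (81, -135), (10, -40), (120, -70), (-10, 70), (93, 125), (100, 50), (10, 60), (-100, 100), (120, 102), (20, 60), (-81, -135), (-90, 90), (-90, -30), (40, 40), (-70, 70), (-64, -150), (100, 20), (-100, -50), (-30, 40), (60, 10), (-50, 40), (-50, 20), (-120, -70), (-55, -158), (52, 160), (131, 55), (30, -166), (-120, -102), (-70, -10), (0, 70), (-120, -102), (-15, -166), (-15, 166), (40, -70), (120,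 -102), (30, -50), (-10, 50), (40, -70), (144, 5), (60, 90), (-15, 166), (10, -60), (81, -135), (120, -100), (46, 166), (10, -60), (120, -30), (-15, 166), (81, -135), (50, 162), (-60, 130), (-10, 70), (-10, 10), (-40, 110), (-10, 120), (50, -20), (120, -100), (76, 140), (-30, 110), (-131, 55), (10, -10), (20, -166)]

def c7 : List (ℤ × ℤ) := [(90, -80), (-10, -80), (50, 162), (-60, 130), (30, 20), (-40, 110), (-10, 120), (-10, 70), (40, -20), (-10, -110), (-30, -110), (-125, -82), (-20, -100), (40, -10), (-134, 45), (120, -102), (40, -166), (-30, -90), (-10, -100), (-131, -55), (-133, 50), (-10, -100), (60, -10), (-10, 80), (46, 166), (-10, 70), (50, -20), (-20, -120), (-135, 40), (-100, 119), (5, 166), (10, -100), (120, -102), (10, -80), (10, -100), (130, -30), (-10, -80), (93, -125), (100, -50), (10, -60), (-100, -100), (120, -102), (20, -60), (-81, 135), (-90, -90), (-90, 30), (40, -40), (-70, -70), (-70, 0), (-123, 90), (65, 149), (-40, 166), (-124, 85), (-60, -10), (64, -150), (130, -62), (25,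 166), (-120, 102), (-70, 10), (-10, -80), (93, -125), (130, -30), (140, -23), (35, 166), (30, 120), (40, 10), (142, -15), (0, -90), (100, -119), (-10, -90), (142, -15), (-30, 40), (-100, 119), (5, 166), (40, -50), (5, -166), (52, -160), (20, -30), (116, 105), (0, 70), (-138, 30), (50, 162), (-60, 130), (80, -50), (10, 30), (-120, 100), (-10, 130), (-10, 70), (10, -30), (100, -80), (35, -166), (60, -50), (140, -23), (40, -60), (5, -166), (-10, 166), (138, -30), (50, 162), (-52, 160), (-124, 85)]

def c8 : List (ℤ × ℤ) := [(-70, -10), (138, -30), (-46, -166), (-70, -90), (-10, -70), (100, -40), (35, 166), (-55, 158), (30, 100), (-80, -50), (20, -10), (60, -50), (140, -23), (30, -40), (35, 166), (-46, -166), (-10, -70), (30, 120), (-90, -50), (-90, -40), (10, 0), (-20, 50), (30, 120), (30, -60), (-85, -132), (-50, -80), (-46, -166), (-50, -60), (-50, 50), (-10, -70), (100, -100), (93, 125), (55, 158), (-50, -80), (-46, -166), (-70, -50), (110, 110), (-10, -70), (10, 80), (120, -70), (110, 60), (-70, -10),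 (20, 40), (128, -70), (-100, 119), (5, -166), (50, -50), (5, 166), (-45, 166), (99, -120), (139, -25), (40, -70), (138, -30), (-40, -166), (138, -30), (64, -150), (129, -65), (135, 40), (-15, -166), (85, 132), (95, -123), (0, -166), (-47, 165), (55, 158), (55, -158), (125, -82), (140, 20), (105, 114), (15, 166), (-55, -158), (46, 166), (121, 95), (145, -3), (120, -100), (46, -166), (40, -166), (-65, -149), (138, -30), (-10, 166), (-45, 166), (-10, -70), (-40, -166), (64, -150), (120, -50), (30, -90), (131, -55), (-105, -114), (0, -166), (0, 10), (60, 100), (95, -123), (70, -90), (81, 135), (60, 20), (0, -60), (40, 60), (110, -30), (30, 60), (120, 102), (20, 50)]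

def c9 : List (ℤ × ℤ) := [(10, -60), (0, -60), (40, 60), (81, 135), (60, 30), (20, 40), (80, 130), (-40, -30), (64, -150), (70, -40), (70, 70), (70, -40), (70, 70), (30, 60), (131, 55), (-120, 102), (70, 145), (-40, -140), (140, 23), (-40, 80), (0, 90), (104, 115), (140, 20), (104, -115), (55, -158), (-85, 132), (-50, -140), (142, -15), (40, -140), (40, -30), (-10, 60), (-50, -70), (0, -80), (104, -115), (50, -50), (142, -15), (40, -40), (40, 70), (30, -120), (123, -90), (20, -120), (20, -110), (20, 100), (-125, 80), (-30, -20), (131, 55), (20, 100), (-125, 80), (100, 119), (-10, 90), (-120, 102), (-10, 80), (140, 10), (70, 110), (-120, 102), (0, 90), (104, 115), (110, -30), (-30, -30), (80, -60), (80, 110), (140, 23), (70, -60), (-40, -30), (-100, -119), (80, 50), (120, 102), (40, 40), (-70, 10), (-120, 102), (-70, 0), (90, -60), (30, 60), (131, -55), (131, 55), (100, -30), (142, -15), (35, 166), (40, -50), (-70, -80), (-46, -166), (-47, 165), (40, 110), (-80, -50), (20, -10), (70, 110), (-120, 102),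 (105, 114), (0, 110), (-46, -166), (-40, 166), (40, 100), (142, -15), (0, 50), (124, 85), (20, 90), (-130, 60), (-65, 149), (-40, 40), (30, 120)]

def c10 : List (ℤ × ℤ) := [(105, 114), (0, 90), (138, -30), (126, 75), (20, 130), (20, 120), (-50, 20), (142, -15), (0, 90), (-20, -60), (-60, -153), (-40, -70), (-46, -166), (-20, -60), (90, -100), (81, 135), (100, -100), (-120, 102), (-20, 60), (0, -40), (-10, -50), (-81, -135), (-52, -160), (70, -60), (50, 40), (120, 102), (40, 40), (-64, -150), (121, -95), (10, 30), (115, 106), (115, -106), (-120, 102), (-30, 50), (80, 50), (30, 30), (-80, 60), (120, 102), (40, 40), (-70, 60), (-60, 10), (50, 20), (-64, -150), (70, -80), (76, -140), (-126, -75), (-100, -60), (120, 0), (60, 0), (-50, 30), (-120, 102), (-40, 30), (70, 0), (120, 102), (-128, 70), (-93, 125), (-50, -40), (60, -30), (52, -160), (115, -106), (120, 60), (-100, 0), (-131, 55), (-100, -80), (-35, -166), (70, -145), (80, 10), (-76, -140), (25, -166), (120, 0), (-100, -60), (-128, 70), (70, 120),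 (-35, -166), (130, 60), (-100, 0), (-133, 50), (-70, -40), (0, -130), (-30, 20), (40, 100), (20, 80), (-60, 10), (-120, 100), (-121, 95), (10, 100), (-70, -70), (139, 25), (35, 166), (30, 60), (-123, 90), (-60, 0), (-124, -85), (-50, 0), (10, 90), (30, -166), (-100, 0), (-75, -140), (138, 30), (-80, -30)]

def c11 : List (ℤ × ℤ) := [(-133, 50), (-80, -50), (-64, -150), (40, -166), (40, 10), (-80, -90), (143, -10), (30, -60), (70, 120), (-35, -166), (116, 105), (10, 140), (-58, 155), (10, 70), (-10, -30), (10, -130), (-40, 10), (30, 100), (129, 65), (20, 100), (-87, 130), (-70, -70), (116, 105), (10, 140), (-58, 155), (10, 70), (10, -40), (-100, -80), (46, -166), (-55, -158), (-80, -60), (-60, -60), (-50, -162), (52, -160), (-90, -100), (20, -60), (20, 50), (85, 132)]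

def cert : List (ℤ × ℤ) := c0 ++ c1 ++ c2 ++ c3 ++ c4 ++ c5 ++ c6 ++ c7 ++ c8 ++ c9 ++ c10 ++ c11

def s0 : St := ⟨-50000, 50000, -50000, 50000, -50000, 50000, -50000, 50000, -50000, 50000⟩

theorem cert_ok : chk 60 s0 cert = some [] := by decide +kernel

theorem not_cov {C0 C1 C2 C3 C4 : ℝ} (h : Cov C0 C1 C2 C3 C4) (hs : Ok C0 C1 C2 C3 C4 s0) :
    False := by
  have := chk_none h 60 s0 cert hs
  rw [cert_ok] at this
  cases this

end Pool.Agent.H305Z.Plank
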