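import Mathlib
import Pool.Agent.H305Z.Plank.Check

set_option autoImplicit false

open MeasureTheory

namespace Pool.Agent.H305Z.Plank

abbrev E := EuclideanSpace ℝ (Fin 2)

/-- the decagon -/
def Dec : Set E := {x | 500 * x 1 ≤ 166 ∧ -(500 * x 1) ≤ 166 ∧
  32 * (500 * x 0) + 37 * (500 * x 1) ≤ 7614 ∧ 32 * (500 * x 0) - 37 * (500 * x 1) ≤ 7614 ∧
  -32 * (500 * x 0) + 37 * (500 * x 1) ≤ 7614 ∧ -32 * (500 * x 0) - 37 * (500 * x 1) ≤ 7614 ∧
  51 * (500 * x 0) + 13 * (500 * x 1) ≤ 7446 ∧ 51 * (500 * x 0) - 13 * (500 * x 1) ≤ 7446 ∧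
  -51 * (500 * x 0) + 13 * (500 * x 1) ≤ 7446 ∧ -51 * (500 * x 0) - 13 * (500 * x 1) ≤ 7446}

/-- the open decagon -/
def DecO : Set E := {x | 500 * x 1 < 166 ∧ -(500 * x 1) < 166 ∧
  32 * (500 * x 0) + 37 * (500 * x 1) < 7614 ∧ 32 * (500 * x 0) - 37 * (500 * x 1) < 7614 ∧
  -32 * (500 * x 0) + 37 * (500 * x 1) < 7614 ∧ -32 * (500 * x 0) - 37 * (500 * x 1) < 7614 ∧
  51 * (500 * x 0) + 13 * (500 * x 1) < 7446 ∧ 51 * (500 * x 0) - 13 * (500 * x 1) < 7446 ∧
  -51 * (500 * x 0) + 13 * (500 * x 1) < 7446 ∧ -51 * (500 * x 0) - 13 * (500 * x 1) < 7446}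

lemma isClosed_Dec : IsClosed Dec := by
  unfold Dec
  simp only [Set.setOf_and]
  refine IsClosed.inter ?_ (IsClosed.inter ?_ (IsClosed.inter ?_ (IsClosed.inter ?_
    (IsClosed.inter ?_ (IsClosed.inter ?_ (IsClosed.inter ?_ (IsClosed.inter ?_
    (IsClosed.inter ?_ ?_))))))))
  all_goals exact isClosed_le (by fun_prop) (by fun_prop)

lemma isOpen_DecO : IsOpen DecO := by
  unfold DecO
  simp only [Set.setOf_and]
  refine IsOpen.inter ?_ (IsOpen.inter ?_ (IsOpen.inter ?_ (IsOpen.inter ?_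
    (IsOpen.inter ?_ (IsOpen.inter ?_ (IsOpen.inter ?_ (IsOpen.inter ?_
    (IsOpen.inter ?_ ?_))))))))
  all_goals exact isOpen_lt (by fun_prop) (by fun_prop)

lemma DecO_sub : DecO ⊆ Dec := by
  rintro x ⟨h0, h1, h2, h3, h4, h5, h6, h7, h8, h9⟩
  exact ⟨h0.le, h1.le, h2.le, h3.le, h4.le, h5.le, h6.le, h7.le, h8.le, h9.le⟩

lemma DecO_int : DecO ⊆ interior Dec := interior_maximal DecO_sub isOpen_DecO

lemma int_nonempty : (interior Dec).Nonempty :=
  ⟨0, DecO_int (by simp [DecO])⟩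

lemma convex_Dec : Convex ℝ Dec := by
  rintro x ⟨h0, h1, h2, h3, h4, h5, h6, h7, h8, h9⟩ y ⟨k0, k1, k2, k3, k4, k5, k6, k7, k8, k9⟩
    a b ha hb hab
  have e0 : (a • x + b • y) 0 = a * x 0 + b * y 0 := by simp
  have e1 : (a • x + b • y) 1 = a * x 1 + b * y 1 := by simp
  have key : ∀ u v M : ℝ, u ≤ M → v ≤ M → a * u + b * v ≤ M := by
    intro u v M hu hv
    have : M = a * M + b * M := by rw [← add_mul, hab, one_mul]
    nlinarith [mul_le_mul_of_nonneg_left hu ha, mul_le_mul_of_nonneg_left hv hb]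
  simp only [Dec, Set.mem_setOf_eq, e0, e1]
  refine ⟨?_, ?_, ?_, ?_, ?_, ?_, ?_, ?_, ?_, ?_⟩
  · linarith [key _ _ _ h0 k0]
  · linarith [key _ _ _ h1 k1]
  · linarith [key _ _ _ h2 k2]
  · linarith [key _ _ _ h3 k3]
  · linarith [key _ _ _ h4 k4]
  · linarith [key _ _ _ h5 k5]
  · linarith [key _ _ _ h6 k6]
  · linarith [key _ _ _ h7 k7]
  · linarith [key _ _ _ h8 k8]
  · linarith [key _ _ _ h9 k9]

lemma compact_Dec : IsCompact Dec := by
  refine Metric.isCompact_of_isClosed_isBounded isClosed_Dec ?_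
  refine (Metric.isBounded_closedBall (x := (0 : E)) (r := 1)).subset ?_
  rintro x ⟨h0, h1, h2, h3, h4, h5, h6, h7, h8, h9⟩
  rw [mem_closedBall_zero_iff, EuclideanSpace.norm_eq, Real.sqrt_le_one]
  simp only [Fin.sum_univ_two, Real.norm_eq_abs, sq_abs]
  have a1 : x 0 ≤ 1 / 2 := by linarith
  have a2 : -(1 / 2) ≤ x 0 := by linarith
  have a3 : x 1 ≤ 1 / 2 := by linarith
  have a4 : -(1 / 2) ≤ x 1 := by linarith
  nlinarith

/-- the point with coordinates `(a/500, b/500)` -/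
noncomputable def pt (a b : ℝ) : E := !₂[a / 500, b / 500]

lemma mem_seg (x : E) (a b c d t : ℝ) (h0 : 0 ≤ t) (h1 : t ≤ 1)
    (e0 : 500 * x 0 = a + t * (c - a)) (e1 : 500 * x 1 = b + t * (d - b)) :
    x ∈ segment ℝ (pt a b) (pt c d) := by
  refine ⟨1 - t, t, by linarith, h0, by ring, ?_⟩
  ext i
  fin_cases i
  · simp [pt]; linarith
  · simp [pt]; linarith

lemma seg_le (a b c d L : ℝ) (hL : 0 ≤ L) (h : (a - c) ^ 2 + (b - d) ^ 2 ≤ L ^ 2) :
    Measure.hausdorffMeasure 1 (segment ℝ (pt a b) (pt c d)) ≤ ENNReal.ofReal (L / 500) := by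
  rw [hausdorffMeasure_segment, edist_dist]
  apply ENNReal.ofReal_le_ofReal
  rw [EuclideanSpace.dist_eq]
  apply Real.sqrt_le_iff.mpr
  refine ⟨by positivity, ?_⟩
  simp only [Fin.sum_univ_two, pt, Real.dist_eq, sq_abs]
  simp
  nlinarith

lemma frontier_sub : frontier Dec ⊆
    segment ℝ (pt (-46) 166) (pt 46 166) ∪ (segment ℝ (pt (-46) (-166)) (pt 46 (-166)) ∪
    (segment ℝ (pt 46 166) (pt 120 102) ∪ (segment ℝ (pt 46 (-166)) (pt 120 (-102)) ∪
    (segment ℝ (pt (-46) 166) (pt (-120) 102) ∪ (segment ℝ (pt (-46) (-166)) (pt (-120) (-102)) ∪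
    (segment ℝ (pt 146 0) (pt 120 102) ∪ (segment ℝ (pt 146 0) (pt 120 (-102)) ∪
    (segment ℝ (pt (-146) 0) (pt (-120) 102) ∪ segment ℝ (pt (-146) 0) (pt (-120) (-102)))))))))) := by
  intro x hx
  have hD : x ∈ Dec := isClosed_Dec.frontier_subset hx
  have hO : x ∉ DecO := fun h => hx.2 (DecO_int h)
  obtain ⟨h0, h1, h2, h3, h4, h5, h6, h7, h8, h9⟩ := hD
  simp only [Set.mem_union]
  rcases h0.eq_or_lt with e | h0'
  · exact Or.inl (mem_seg x _ _ _ _ ((500 * x 0 + 46) / 92) (by linarith) (by linarith)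
      (by ring) (by linarith))
  rcases h1.eq_or_lt with e | h1'
  · exact Or.inr <| Or.inl (mem_seg x _ _ _ _ ((500 * x 0 + 46) / 92) (by linarith) (by linarith)
      (by ring) (by linarith))
  rcases h2.eq_or_lt with e | h2'
  · exact Or.inr <| Or.inr <| Or.inl (mem_seg x _ _ _ _ ((500 * x 0 - 46) / 74) (by linarith)
      (by linarith) (by ring) (by linarith))
  rcases h3.eq_or_lt with e | h3'
  · exact Or.inr <| Or.inr <| Or.inr <| Or.inl (mem_seg x _ _ _ _ ((500 * x 0 - 46) / 74)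
      (by linarith) (by linarith) (by ring) (by linarith))
  rcases h4.eq_or_lt with e | h4'
  · exact Or.inr <| Or.inr <| Or.inr <| Or.inr <| Or.inl (mem_seg x _ _ _ _
      ((-(500 * x 0) - 46) / 74) (by linarith) (by linarith) (by ring) (by linarith))
  rcases h5.eq_or_lt with e | h5'
  · exact Or.inr <| Or.inr <| Or.inr <| Or.inr <| Or.inr <| Or.inl (mem_seg x _ _ _ _
      ((-(500 * x 0) - 46) / 74) (by linarith) (by linarith) (by ring) (by linarith))
  rcases h6.eq_or_lt with e | h6'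
  · exact Or.inr <| Or.inr <| Or.inr <| Or.inr <| Or.inr <| Or.inr <| Or.inl (mem_seg x _ _ _ _
      ((500 * x 1) / 102) (by linarith) (by linarith) (by linarith) (by ring))
  rcases h7.eq_or_lt with e | h7'
  · exact Or.inr <| Or.inr <| Or.inr <| Or.inr <| Or.inr <| Or.inr <| Or.inr <| Or.inl
      (mem_seg x _ _ _ _ (-(500 * x 1) / 102) (by linarith) (by linarith) (by linarith) (by ring))
  rcases h8.eq_or_lt with e | h8'
  · exact Or.inr <| Or.inr <| Or.inr <| Or.inr <| Or.inr <| Or.inr <| Or.inr <| Or.inr <| Or.inl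
      (mem_seg x _ _ _ _ ((500 * x 1) / 102) (by linarith) (by linarith) (by linarith) (by ring))
  rcases h9.eq_or_lt with e | h9'
  · exact Or.inr <| Or.inr <| Or.inr <| Or.inr <| Or.inr <| Or.inr <| Or.inr <| Or.inr <| Or.inr
      (mem_seg x _ _ _ _ (-(500 * x 1) / 102) (by linarith) (by linarith) (by linarith) (by ring))
  exact absurd ⟨h0', h1', h2', h3', h4', h5', h6', h7', h8', h9'⟩ hO

lemma union_le {A B : Set E} {a b : ℝ} (ha : 0 ≤ a) (hb : 0 ≤ b)
    (hA : Measure.hausdorffMeasure 1 A ≤ ENNReal.ofReal a)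
    (hB : Measure.hausdorffMeasure 1 B ≤ ENNReal.ofReal b) :
    Measure.hausdorffMeasure 1 (A ∪ B) ≤ ENNReal.ofReal (a + b) := by
  rw [ENNReal.ofReal_add ha hb]
  exact (measure_union_le A B).trans (add_le_add hA hB)

lemma perim_le : Measure.hausdorffMeasure 1 (frontier Dec) ≤ 2 := by
  refine (measure_mono frontier_sub).trans ?_
  have h := union_le (by norm_num) (by norm_num)
    (seg_le (-46) 166 46 166 92 (by norm_num) (by norm_num)) <|
    union_le (by norm_num) (by norm_num)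
    (seg_le (-46) (-166) 46 (-166) 92 (by norm_num) (by norm_num)) <|
    union_le (by norm_num) (by norm_num)
    (seg_le 46 166 120 102 98 (by norm_num) (by norm_num)) <|
    union_le (by norm_num) (by norm_num)
    (seg_le 46 (-166) 120 (-102) 98 (by norm_num) (by norm_num)) <|
    union_le (by norm_num) (by norm_num)
    (seg_le (-46) 166 (-120) 102 98 (by norm_num) (by norm_num)) <|
    union_le (by norm_num) (by norm_num)
    (seg_le (-46) (-166) (-120) (-102) 98 (by norm_num) (by norm_num)) <|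
    union_le (by norm_num) (by norm_num)
    (seg_le 146 0 120 102 106 (by norm_num) (by norm_num)) <|
    union_le (by norm_num) (by norm_num)
    (seg_le 146 0 120 (-102) 106 (by norm_num) (by norm_num)) <|
    union_le (by norm_num) (by norm_num)
    (seg_le (-146) 0 (-120) 102 106 (by norm_num) (by norm_num))
    (seg_le (-146) 0 (-120) (-102) 106 (by norm_num) (by norm_num))
  refine h.trans ?_
  rw [← ENNReal.ofReal_ofNat 2]
  apply ENNReal.ofReal_le_ofReal
  norm_num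

/-- the five unit normals -/
noncomputable def U : Fin 5 → E :=
  ![!₂[1, 0], !₂[4 / 5, 3 / 5], !₂[7 / 25, 24 / 25], !₂[-7 / 25, 24 / 25], !₂[-4 / 5, 3 / 5]]

lemma norm_U (i : Fin 5) : ‖U i‖ = 1 := by
  rw [EuclideanSpace.norm_eq, Real.sqrt_eq_one]
  fin_cases i <;> simp [U, Fin.sum_univ_two, abs_div] <;> norm_num

lemma inner_pt (a b c d : ℝ) : inner ℝ (pt a b) (!₂[c, d] : E) = (c * a + d * b) / 500 := by
  simp [pt, EuclideanSpace.inner_eq_star_dotProduct, Fin.sum_univ_two, dotProduct]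
  ring

lemma clamp (c p : ℝ) (h1 : -10000 ≤ p) (h2 : p ≤ 10000) (h : c ≤ p ∧ p ≤ c + 2500) :
    max (-50000) (min 50000 c) ≤ p ∧ p ≤ max (-50000) (min 50000 c) + 2500 := by
  rw [min_eq_right (by linarith [h.1]), max_eq_right (by linarith [h.2])]
  exact h

theorem not_cover (c : Fin 5 → ℝ)
    (hc : Dec ⊆ ⋃ i, {x : E | c i ≤ inner ℝ x (U i) ∧ inner ℝ x (U i) ≤ c i + 1 / 5}) : False := by
  refine not_cov (C0 := max (-50000) (min 50000 (12500 * c 0)))
    (C1 := max (-50000) (min 50000 (12500 * c 1))) (C2 := max (-50000) (min 50000 (12500 * c 2)))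
    (C3 := max (-50000) (min 50000 (12500 * c 3))) (C4 := max (-50000) (min 50000 (12500 * c 4)))
    ?_ ?_
  · intro x y hxy
    simp only [inB, Bool.and_eq_true, decide_eq_true_eq] at hxy
    obtain ⟨⟨⟨⟨⟨⟨⟨⟨⟨h0, h1⟩, h2⟩, h3⟩, h4⟩, h5⟩, h6⟩, h7⟩, h8⟩, h9⟩ := hxy
    have k0 : (y : ℝ) ≤ 166 := by exact_mod_cast h0
    have k1 : -(y : ℝ) ≤ 166 := by exact_mod_cast h1
    have k2 : 32 * (x : ℝ) + 37 * y ≤ 7614 := by exact_mod_cast h2
    have k3 : 32 * (x : ℝ) - 37 * y ≤ 7614 := by exact_mod_cast h3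
    have k4 : -32 * (x : ℝ) + 37 * y ≤ 7614 := by exact_mod_cast h4
    have k5 : -32 * (x : ℝ) - 37 * y ≤ 7614 := by exact_mod_cast h5
    have k6 : 51 * (x : ℝ) + 13 * y ≤ 7446 := by exact_mod_cast h6
    have k7 : 51 * (x : ℝ) - 13 * y ≤ 7446 := by exact_mod_cast h7
    have k8 : -51 * (x : ℝ) + 13 * y ≤ 7446 := by exact_mod_cast h8
    have k9 : -51 * (x : ℝ) - 13 * y ≤ 7446 := by exact_mod_cast h9
    have hm : pt x y ∈ Dec := by
      have e0 : 500 * (pt x y) 0 = x := by simp [pt]; ring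
      have e1 : 500 * (pt x y) 1 = y := by simp [pt]; ring
      simp only [Dec, Set.mem_setOf_eq, e0, e1]
      exact ⟨k0, k1, k2, k3, k4, k5, k6, k7, k8, k9⟩
    obtain ⟨i, hi⟩ := Set.mem_iUnion.mp (hc hm)
    have hx1 : (x : ℝ) ≤ 146 := by linarith
    have hx2 : -146 ≤ (x : ℝ) := by linarith
    push_cast
    fin_cases i
    · left
      have hi' : c 0 ≤ inner ℝ (pt x y) (!₂[1, 0] : E) ∧
        inner ℝ (pt x y) (!₂[1, 0] : E) ≤ c 0 + 1 / 5 := hi
      rw [inner_pt] at hi'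
      exact clamp _ _ (by linarith) (by linarith) ⟨by linarith [hi'.1], by linarith [hi'.2]⟩
    · right; left
      have hi' : c 1 ≤ inner ℝ (pt x y) (!₂[4 / 5, 3 / 5] : E) ∧
        inner ℝ (pt x y) (!₂[4 / 5, 3 / 5] : E) ≤ c 1 + 1 / 5 := hi
      rw [inner_pt] at hi'
      exact clamp _ _ (by linarith) (by linarith) ⟨by linarith [hi'.1], by linarith [hi'.2]⟩
    · right; right; left
      have hi' : c 2 ≤ inner ℝ (pt x y) (!₂[7 / 25, 24 / 25] : E) ∧
        inner ℝ (pt x y) (!₂[7 / 25, 24 / 25] : E) ≤ c 2 + 1 / 5 := hi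
      rw [inner_pt] at hi'
      exact clamp _ _ (by linarith) (by linarith) ⟨by linarith [hi'.1], by linarith [hi'.2]⟩
    · right; right; right; left
      have hi' : c 3 ≤ inner ℝ (pt x y) (!₂[-7 / 25, 24 / 25] : E) ∧
        inner ℝ (pt x y) (!₂[-7 / 25, 24 / 25] : E) ≤ c 3 + 1 / 5 := hi
      rw [inner_pt] at hi'
      exact clamp _ _ (by linarith) (by linarith) ⟨by linarith [hi'.1], by linarith [hi'.2]⟩
    · right; right; right; right
      have hi' : c 4 ≤ inner ℝ (pt x y) (!₂[-4 / 5, 3 / 5] : E) ∧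
        inner ℝ (pt x y) (!₂[-4 / 5, 3 / 5] : E) ≤ c 4 + 1 / 5 := hi
      rw [inner_pt] at hi'
      exact clamp _ _ (by linarith) (by linarith) ⟨by linarith [hi'.1], by linarith [hi'.2]⟩
  · have key : ∀ t : ℝ, (((-50000 : ℤ) : ℝ) ≤ max (-50000) (min 50000 t) ∧
        max (-50000) (min 50000 t) ≤ ((50000 : ℤ) : ℝ)) := by
      intro t
      push_cast
      exact ⟨le_max_left _ _, max_le (by norm_num) (min_le_left _ _)⟩
    exact ⟨key _, key _, key _, key _, key _⟩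

end Pool.Agent.H305Z.Plank
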